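import Pool.Agent.H23.PQ.CoreD
import Pool.Agent.H2.LH.Forced2

/-!
# The second core statement, for clubs `D`
-/

open Set Ordinal

namespace H23.PQ
open H85.Forcing H85.Forcing.BN H85.Forcing.RO H9.PF H2.LH

variable {P : Type} [Preorder P]

/-- closure points of a function -/
theorem exists_lim_closed (g : W → W) (x : W) : ∃ α, H9.PF.Lim α ∧ x < α ∧ ∀ γ < α, g γ < α := by
  classical
  have h1 : ∀ y : W, ∃ z : W, y < z ∧ ∀ γ ≤ y, g γ < z := fun y => by
    have hc : (Iic y).Countable := by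
      rw [← Iio_insert]
      exact (countable_Iio y).insert y
    obtain ⟨b, hb⟩ := exists_bound ((countable_singleton y).union (hc.image g))
    exact ⟨b, hb y (Or.inl rfl), fun γ hγ => hb _ (Or.inr ⟨γ, hγ, rfl⟩)⟩
  choose s hs hs2 using h1
  let u : ℕ → W := fun n => s^[n] x
  have hsucc : ∀ n, u (n + 1) = s (u n) := fun n => by
    simp only [u, Function.iterate_succ_apply']
  have hu : ∀ n, u n < u (n + 1) := fun n => by
    rw [hsucc]
    exact hs _
  obtain ⟨b, hb⟩ := exists_bound (countable_range u)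
  have hne : ({b : W | ∀ n, u n < b}).Nonempty := ⟨b, fun n => hb _ ⟨n, rfl⟩⟩
  let α := wellFounded_lt.min _ hne
  have hα : ∀ n, u n < α := wellFounded_lt.min_mem _ hne
  have hlt : ∀ γ < α, ∃ n, γ ≤ u n := by
    intro γ hγ
    have h2 : γ ∉ {b : W | ∀ n, u n < b} := fun h => wellFounded_lt.not_lt_min _ h hγ
    simp only [mem_ofPred_eq, not_forall, not_lt] at h2
    exact h2
  refine ⟨α, ⟨⟨u 0, hα 0⟩, fun γ hγ => ?_⟩, hα 0, fun γ hγ => ?_⟩
  · obtain ⟨n, hn⟩ := hlt γ hγ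
    exact ⟨u (n + 1), hα _, hn.trans_lt (hu n)⟩
  · obtain ⟨n, hn⟩ := hlt γ hγ
    have h3 := hs2 (u n) γ hn
    rw [← hsucc] at h3
    exact h3.trans (hα _)

theorem club_unb {p : P} {D : BN (RO P)} (hD : p ∈ isClubB (kapN W) D) :
    ∀ ξ : W, ∀ q ≤ p, ∃ r ≤ q, ∃ y, ξ < y ∧ r ∈ mem (ordN y) D := by
  unfold isClubB at hD
  simp only [forces_inf, forces_ball_kapN, forces_bex_kapN] at hD
  intro ξ q hq
  obtain ⟨r, hr, y, hy⟩ := hD.1 ξ q hq
  exact ⟨r, hr, y, forces_mem_ordN.1 (forces_inf.1 hy).2, (forces_inf.1 hy).1⟩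

theorem club_closed {p : P} {D : BN (RO P)} (hD : p ∈ isClubB (kapN W) D) {α : W} (hα : H9.PF.Lim α)
    {q : P} (hq : q ≤ p) (h : ∀ y < α, ∀ r ≤ q, ∃ s ≤ r, ∃ z < α, y < z ∧ s ∈ mem (ordN z) D) :
    q ∈ mem (ordN α) D := by
  unfold isClubB at hD
  simp only [forces_inf, forces_ball_kapN, forces_bex_kapN] at hD
  have h1 := forces_himp.1 (hD.2 α) q hq ((forces_isLimB α).2 hα)
  refine forces_himp.1 h1 q le_rfl ?_
  simp only [forces_ball_ordN, forces_bex_ordN, forces_inf]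
  intro y hy r hr
  obtain ⟨s, hs, z, hz, hyz, h2⟩ := h y hy r hr
  exact ⟨s, hs, z, hz, h2, forces_mem_ordN.2 hyz⟩

/-- a club contains a club of the ground model -/
theorem club_ground (ccc : ∀ A : Set P, (∀ p ∈ A, ∀ q ∈ A, (∃ r, r ≤ p ∧ r ≤ q) → p = q) →
    A.Countable) {p : P} {D : BN (RO P)} (hD : p ∈ isClubB (kapN W) D) :
    ∃ g : W → W, ∀ α, H9.PF.Lim α → (∀ γ < α, g γ < α) → p ∈ mem (ordN α) D := by
  have hg : ∀ ξ : W, ∃ β : W, ∀ q ≤ p, ∃ r ≤ q, ∃ y < β, ξ < y ∧ r ∈ mem (ordN y) D := by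
    intro ξ
    refine ccc_bound ccc p (fun y r => ξ < y ∧ r ∈ mem (ordN y) D)
      (fun y q r hr h => ⟨h.1, h.2.down hr⟩) ?_
    intro q hq
    obtain ⟨r, hr, y, hy, h⟩ := club_unb hD ξ q hq
    exact ⟨r, hr, y, hy, h⟩
  choose g hg using hg
  refine ⟨g, fun α hα hgα => club_closed hD hα le_rfl fun y hy r hr => ?_⟩
  obtain ⟨t, ht, z, hz, hyz, h2⟩ := hg y r hr
  exact ⟨t, ht, z, hz.trans (hgα y hy), hyz, h2⟩

/-- below every level, it is decided densely that `C ∩ D` is a particular finite set -/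
theorem decide_ladDB {p : P} {D C : BN (RO P)} {α : W} (hD : p ∈ isClubB (kapN W) D)
    (h : p ∈ ladDB D C (ordN α)) (η : W) (hη : η < α) :
    ∀ q ≤ p, ∃ r ≤ q, ∃ w : Finset W,
      ∀ x < η, (x ∈ w → r ∈ mem (ordN x) C ⊓ mem (ordN x) D) ∧
        (x ∉ w → r ∈ (mem (ordN x) C ⊓ mem (ordN x) D)ᶜ) := by
  classical
  unfold ladDB at h
  obtain ⟨-, h2, h3⟩ := h
  change p ∈ (⨅ x, mem x (ordN α) ⇨ ⨆ y, mem y C ⊓ mem x y : RO P) at h2
  change p ∈ (⨅ b, mem b D ⇨ (inAccB C b)ᶜ : RO P) at h3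
  rw [forces_ball_ordN] at h2
  rw [forces_iInf] at h3
  revert hη
  induction η using WellFoundedLT.induction with
  | ind η ih =>
  intro hη q hq
  by_cases h0 : ∃ γ, γ < η
  · by_cases hL : ∀ γ < η, ∃ δ < η, γ < δ
    · -- limit case
      have hηL : H9.PF.Lim η := ⟨h0, hL⟩
      have h5 : ¬ ∀ β < η, ∀ r ≤ q, ∃ s ≤ r, ∃ y < η, β < y ∧
          s ∈ mem (ordN y) C ⊓ mem (ordN y) D := by
        intro h5
        have h6 : q ∈ mem (ordN η) D := club_closed hD hηL hq fun y hy r hr => by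
          obtain ⟨s, hs, z, hz, hyz, h⟩ := h5 y hy r hr
          exact ⟨s, hs, z, hz, hyz, (forces_inf.1 h).2⟩
        have h7 : q ∈ (inAccB C (ordN η))ᶜ := forces_himp.1 (h3 (ordN η)) q hq h6
        refine forces_compl.1 h7 q le_rfl ?_
        unfold inAccB
        refine ⟨?_, ?_, (h2 η hη).down hq⟩
        · obtain ⟨γ, hγ⟩ := h0
          exact forces_iSup_of (ordN γ) (forces_mem_ordN.2 hγ)
        · change q ∈ (⨅ b, mem b (ordN η) ⇨ ⨆ y, mem y C ⊓ (mem y (ordN η) ⊓ mem b y) : RO P)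
          rw [forces_ball_ordN]
          intro β hβ
          refine forces_of_dense fun r hr => ?_
          obtain ⟨s, hs, y, hy, hβy, h⟩ := h5 β hβ r hr
          exact ⟨s, hs, forces_iSup_of (ordN y) (forces_inf.2 ⟨(forces_inf.1 h).1,
            forces_inf.2 ⟨forces_mem_ordN.2 hy, forces_mem_ordN.2 hβy⟩⟩)⟩
      push Not at h5
      obtain ⟨β, hβ, q1, hq1, h6⟩ := h5
      obtain ⟨β', hβ', hββ'⟩ := hL β hβ
      obtain ⟨r, hr, w, hw⟩ := ih β' hβ' (hβ'.trans hη) q1 (hq1.trans hq)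
      refine ⟨r, hr.trans hq1, w.filter (fun x => x < β'), fun x hx => ?_⟩
      by_cases hxβ : x < β'
      · refine ⟨fun h => (hw x hxβ).1 (Finset.mem_filter.1 h).1, fun h => (hw x hxβ).2 fun h' =>
          h (Finset.mem_filter.2 ⟨h', hxβ⟩)⟩
      · refine ⟨fun h => absurd (Finset.mem_filter.1 h).2 hxβ, fun _ => ?_⟩
        rw [forces_compl]
        intro s hs hsx
        exact h6 s (hs.trans hr) x hx (hββ'.trans_le (not_lt.1 hxβ)) hsx
    · -- successor case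
      push Not at hL
      obtain ⟨γ, hγ, hγ2⟩ := hL
      obtain ⟨r, hr, w, hw⟩ := ih γ hγ (hγ.trans hη) q hq
      obtain ⟨s, hs, h4⟩ := exists_decide (mem (ordN γ) C ⊓ mem (ordN γ) D) r
      rcases h4 with h4 | h4
      · refine ⟨s, hs.trans hr, insert γ w, fun x hx => ?_⟩
        rcases (hγ2 x hx).lt_or_eq with h | h
        · refine ⟨fun h' => ((hw x h).1 ((Finset.mem_insert.1 h').resolve_left h.ne)).down hs,
            fun h' => ((hw x h).2 fun h'' => h' (Finset.mem_insert_of_mem h'')).down hs⟩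
        · subst h
          exact ⟨fun _ => h4, fun h' => absurd (Finset.mem_insert_self _ _) h'⟩
      · refine ⟨s, hs.trans hr, w.erase γ, fun x hx => ?_⟩
        rcases (hγ2 x hx).lt_or_eq with h | h
        · refine ⟨fun h' => ((hw x h).1 (Finset.mem_of_mem_erase h')).down hs,
            fun h' => ((hw x h).2 fun h'' => h' (Finset.mem_erase.2 ⟨h.ne, h''⟩)).down hs⟩
        · subst h
          exact ⟨fun h' => absurd h' (Finset.notMem_erase _ _), fun _ => h4⟩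
  · refine ⟨q, le_rfl, ∅, fun x hx => absurd ⟨x, hx⟩ h0⟩

/-- the values of the sets `C_α ∩ D` -/
noncomputable def fD (D c : BN (RO P)) (α x : W) : RO P :=
  (isClubB (kapN W) D ⊓ ladSeqDB (kapN W) D c) ⊓
    ((⨆ C, rel c (ordN α) C ⊓ mem (ordN x) C) ⊓ mem (ordN x) D)

theorem ladSeqDB_elim {p : P} {D c : BN (RO P)} (h : p ∈ ladSeqDB (kapN W) D c) {α : W}
    (hα : H9.PF.Lim α) : ∀ q ≤ p, ∃ r ≤ q, ∃ C,
      (∀ X, ∀ s ≤ r, (s ∈ rel c (ordN α) X ↔ s ∈ beq X C)) ∧ r ∈ ladDB D C (ordN α) := by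
  intro q hq
  unfold ladSeqDB at h
  rw [forces_ball_kapN] at h
  have h1 := forces_himp.1 (h α) q hq ((forces_isLimB α).2 hα)
  obtain ⟨r, hr, C, hC⟩ := forces_iSup.1 h1 q le_rfl
  obtain ⟨hC1, hC2⟩ := forces_inf.1 hC
  refine ⟨r, hr, C, fun X s hs => ?_, hC2⟩
  have h2 := forces_inf.1 (forces_iInf.1 hC1 X)
  exact ⟨forces_himp.1 h2.1 s hs, forces_himp.1 h2.2 s hs⟩

theorem ladF_fD (D c : BN (RO P)) : LadF (fD D c) := by
  intro α hα η hη p
  by_cases h : ∃ q ≤ p, q ∈ isClubB (kapN W) D ⊓ ladSeqDB (kapN W) D c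
  · obtain ⟨q, hq, hDq, h⟩ := h
    have hDq : q ∈ isClubB (kapN W) D := hDq
    have h : q ∈ ladSeqDB (kapN W) D c := h
    obtain ⟨r, hr, C, hC1, hC2⟩ := ladSeqDB_elim h hα q le_rfl
    have hrf : ∀ s ≤ r, ∀ x, s ∈ fD D c α x ↔ s ∈ mem (ordN x) C ⊓ mem (ordN x) D := by
      intro s hs x
      constructor
      · intro h1
        obtain ⟨-, h2, h3⟩ := h1
        have h2 : s ∈ (⨆ C, rel c (ordN α) C ⊓ mem (ordN x) C) := h2
        have h3 : s ∈ mem (ordN x) D := h3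
        refine forces_inf.2 ⟨forces_of_dense fun t ht => ?_, h3⟩
        obtain ⟨u, hu, X, hX⟩ := forces_iSup.1 h2 t ht
        obtain ⟨hX1, hX2⟩ := forces_inf.1 hX
        exact ⟨u, hu, congr_right ((hC1 X u (hu.trans (ht.trans hs))).1 hX1) hX2⟩
      · intro h1
        obtain ⟨h1, h3⟩ := forces_inf.1 h1
        refine forces_inf.2 ⟨forces_inf.2 ⟨hDq.down (hs.trans hr), h.down (hs.trans hr)⟩,
          forces_inf.2 ⟨forces_iSup_of C (forces_inf.2 ⟨?_, h1⟩), h3⟩⟩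
        exact (hC1 C s hs).2 (by rw [beq_refl]; exact forces_top)
    obtain ⟨s, hs, w, hw⟩ := decide_ladDB (hDq.down hr) hC2 η hη r le_rfl
    refine ⟨s, hs.trans (hr.trans hq), w, fun x hx => ⟨fun h' => ?_, fun h' => ?_⟩⟩
    · exact (hrf s hs x).2 ((hw x hx).1 h')
    · rw [forces_compl]
      intro t ht ht2
      exact not_both ((hrf t (ht.trans hs) x).1 ht2) (((hw x hx).2 h').down ht)
  · refine ⟨p, le_rfl, ∅, fun x _ => ⟨fun h' => absurd h' (Finset.notMem_empty _), fun _ => ?_⟩⟩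
    rw [forces_compl]
    intro q hq h'
    exact h ⟨q, hq, (forces_inf.1 h').1⟩

theorem forces_core2D (ccc : ∀ A : Set P, (∀ p ∈ A, ∀ q ∈ A, (∃ r, r ≤ p ∧ r ≤ q) → p = q) →
    A.Countable)
    (kill : ∀ f : W → W → RO P, LadF f → ∃ b : ℕ → W → RO P,
      (∀ (i : ℕ) (p : P), ∃ γ, ∀ x, γ < x → H9.PF.Lim x → ∃ q ≤ p, q ∈ b i x) ∧
      ∀ α, H9.PF.Lim α → ∀ p : P, ∃ q ≤ p, ∃ i, ∃ γ < α, ∀ x, γ ≤ x → x < α →
        q ∈ (b i x ⊓ f α x)ᶜ)
    {ω' : W} (e : ℕ → W)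
    (he : Function.Injective e) (heω : ∀ n, e n < ω') (heL : ∀ α, H9.PF.Lim α → ∀ n, e n < α)
    (p : P) : p ∈ (core2DB (kapN W) (ordN ω') : RO P) := by
  classical
  unfold core2DB
  rw [forces_ball]
  intro D p0 _ hD
  rw [forces_ball]
  intro c p1 hp1 hc
  have hD1 : p1 ∈ isClubB (kapN W) D := hD.down hp1
  obtain ⟨g, hg⟩ := club_ground ccc hD1
  obtain ⟨b, hb1, hb2⟩ := kill (fD D c) (ladF_fD D c)
  let R : W → W → RO P := fun i x =>
    if h : ∃ n, e n = i then b h.choose x ⊓ mem (ordN x) D else ⊤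
  have hR : ∀ n x, R (e n) x = b n x ⊓ mem (ordN x) D := by
    intro n x
    have h : ∃ m, e m = e n := ⟨n, rfl⟩
    have h2 : h.choose = n := he h.choose_spec
    simp only [R]
    rw [dif_pos h, h2]
  refine forces_iSup_of (relN R) (forces_iSup_of dN ?_)
  rw [forces_inf, forces_inf]
  refine ⟨?_, forces_isClub_dN p1, ?_⟩
  · simp only [forces_ball_kapN, forces_bex_kapN, forces_inf, rel_relN, forces_mem_ordN]
    intro i x q hq
    by_cases h : ∃ n, e n = i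
    · obtain ⟨n, rfl⟩ := h
      obtain ⟨γ, hγ⟩ := hb1 n q
      obtain ⟨α, hα, hα1, hα2⟩ := exists_lim_closed g (max γ x)
      obtain ⟨r, hr, h2⟩ := hγ α ((le_max_left _ _).trans_lt hα1) hα
      refine ⟨r, hr, α, ?_, (le_max_right _ _).trans_lt hα1⟩
      rw [hR]
      exact forces_inf.2 ⟨h2, (hg α hα hα2).down (hr.trans hq)⟩
    · obtain ⟨y, -, hy⟩ := exists_lim_gt x
      refine ⟨q, le_rfl, y, ?_, hy⟩
      simp only [R]
      rw [dif_neg h]
      exact forces_top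
  · rw [forces_ball_kapN]
    intro α
    rw [forces_himp]
    intro q hq hα
    rw [dN, mem_setN, forces_ofProp] at hα
    rw [forces_inf]
    refine ⟨(forces_isLimB α).2 hα, forces_of_dense fun q1 hq1 => ?_⟩
    obtain ⟨q2, hq2, n, γ, hγ, h⟩ := hb2 α hα q1
    refine ⟨q2, hq2, forces_iSup_of (ordN (e n)) (forces_inf.2
      ⟨forces_mem_ordN.2 (heω n), forces_inf.2 ⟨forces_mem_ordN.2 (heL α hα n), ?_⟩⟩)⟩
    rw [forces_ball]
    intro C s hs hC
    refine forces_iSup_of (ordN γ) (forces_inf.2 ⟨forces_mem_ordN.2 hγ, ?_⟩)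
    rw [forces_ball]
    intro y t ht hyC
    rw [forces_himp]
    intro u hu hby
    rw [forces_compl]
    intro v hv hγy
    -- `y` is forced to be an element of `α`
    have hvp : v ≤ p1 := hv.trans (hu.trans (ht.trans (hs.trans (hq2.trans (hq1.trans hq)))))
    have hvc : v ∈ ladSeqDB (kapN W) D c := hc.down hvp
    obtain ⟨v1, hv1, C', hC1, hC2⟩ := ladSeqDB_elim hvc hα v le_rfl
    have hCC : v1 ∈ beq C C' :=
      (hC1 C v1 le_rfl).1 (hC.down (hv1.trans (hv.trans (hu.trans ht))))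
    have h3 : v1 ∈ (⨅ x, mem x C' ⇨ mem x (ordN α) : RO P) := by
      unfold ladDB at hC2
      exact hC2.1
    have h4 : v1 ∈ mem y C' := congr_right hCC (hyC.down (hv1.trans (hv.trans hu)))
    obtain ⟨v2, hv2, y', hy', h5⟩ := mem_ordN_elim (forces_ball.1 h3 y v1 le_rfl h4)
    have h6 : v2 ∈ (mem (ordN γ) (ordN y') : RO P) :=
      congr_right h5 (hγy.down (hv2.trans hv1))
    have h7 : v2 ∈ rel (relN R) (ordN (e n)) (ordN y') :=
      congr_ext (fun y => rel (relN R) (ordN (e n)) y) h5 (hby.down (hv2.trans (hv1.trans hv)))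
    rw [rel_relN, hR] at h7
    obtain ⟨h7, h7'⟩ := forces_inf.1 h7
    have h8 : v2 ∈ fD D c α y' := by
      refine forces_inf.2 ⟨forces_inf.2 ⟨hD1.down (hv2.trans (hv1.trans hvp)),
        hvc.down (hv2.trans hv1)⟩, forces_inf.2 ⟨forces_iSup_of C (forces_inf.2 ⟨?_, ?_⟩), h7'⟩⟩
      · exact hC.down (hv2.trans (hv1.trans (hv.trans (hu.trans ht))))
      · exact congr_left h5 (hyC.down (hv2.trans (hv1.trans (hv.trans hu))))
    have h9 := h y' (forces_mem_ordN.1 h6).le hy'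
    exact not_both (forces_inf.2 ⟨h7, h8⟩)
      (h9.down (hv2.trans (hv1.trans (hv.trans (hu.trans (ht.trans hs))))))

end H23.PQ
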