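import Pool.Agent.H2.PX.Good
import Pool.Agent.H23.PQ.ForcedD

/-!
# The killing sets of the forcing notion for coherent sequences meet every ground model club

So in the extension the sequences with `acc(C_α) ∩ D = ∅` for a club `D` are killed as well.
-/

open Set

namespace H23.PQ
open H85.Forcing H85.Forcing.BN H85.Forcing.RO H9.PF H2.LH H2.PX

/-- as `H2.PX.kill_PP`, with more genericity -/
theorem kill_strong (f g : W → W → Bool → RO PP) (hfg : Rows f g) : ∃ b : ℕ → W → RO PP,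
    (∀ (i : ℕ) (p : PP), ∃ γ, ∀ x, γ < x → H9.PF.Lim x → ∃ q ≤ p, q ∈ b i x) ∧
    ∀ α, H9.PF.Lim α → ∀ p : PP, ∃ q ≤ p, ∃ i, ∀ x < α, q ∈ (b i x ⊓ f α x false)ᶜ := by
  obtain ⟨ν, hν, h1, h2, h3⟩ := exists_nm hit_all f g hfg
  refine ⟨BB ν, fun i p => ?_, fun α hα p => ?_⟩
  · obtain ⟨b, hb⟩ := exists_bound (s := ((p.1.image Fact.pt : Finset W) : Set W))
      (Finset.countable_toSet _)
    refine ⟨b, fun x hbx hxl => ?_⟩
    obtain ⟨q, hq, e⟩ := exists_add_b p hν i hxl fun u hu =>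
      (hb _ (Finset.mem_coe.2 (Finset.mem_image_of_mem _ hu))).trans hbx
    exact ⟨q, hq, BB_of_mem (e ▸ Finset.mem_insert_self _ _)⟩
  · obtain ⟨q, hq, i, hi⟩ := exists_add_s p hν hα
    refine ⟨q, hq, i, fun x hx => ?_⟩
    rw [forces_compl]
    rintro r hr ⟨g1, g2⟩
    have g1 : r ∈ BB ν i x := g1
    have g2 : r ∈ f α x false := g2
    obtain ⟨s, hs, g3⟩ := forces_BB.1 g1 r le_rfl
    have g4 : D s.1 ν (true, α, x, false) false :=
      s.2.1.con ν i α false x ((hs.trans hr) hi) g3 hx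
    have g5 : s ∈ (f α x false)ᶜ := h2 s _ g4
    exact forces_compl.1 g5 s le_rfl (Forces.down g2 hs)

/-- a ladder system is an instance of rows -/
theorem rows_of_ladF {P : Type} [Preorder P] {f : W → W → RO P} (hf : LadF f) :
    Rows (fun e y t => bif t then ⊥ else f e y) (fun _ _ _ => ⊥) where
  cl := by
    intro e δ he hδ hδe p _
    obtain ⟨q, hq, w, hw⟩ := hf e he δ hδe p
    classical
    obtain ⟨γ, hγ⟩ := hδ.1
    obtain ⟨h, hh, hb⟩ : ∃ h < δ, ∀ x ∈ w, x < δ → x < h := by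
      let w' : Finset W := insert γ (w.filter fun x => x < δ)
      have hne : w'.Nonempty := ⟨γ, Finset.mem_insert_self _ _⟩
      have hm : w'.max' hne < δ := by
        rcases Finset.mem_insert.1 (w'.max'_mem hne) with h | h
        · rw [h]; exact hγ
        · exact (Finset.mem_filter.1 h).2
      obtain ⟨h, hh1, hh2⟩ := hδ.2 _ hm
      exact ⟨h, hh1, fun x hx hxδ => (Finset.le_max' _ _ (Finset.mem_insert_of_mem
        (Finset.mem_filter.2 ⟨hx, hxδ⟩))).trans_lt hh2⟩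
    refine ⟨q, hq, h, hh, fun y hy1 hy2 t => ?_⟩
    cases t with
    | true =>
      rw [forces_compl]
      intro r _ hr
      exact not_forces_bot hr
    | false => exact (hw y hy2).2 fun hyw => absurd (hb y hyw hy2) (not_lt.2 hy1)
  coh := by
    intro e δ _ _ _ p hp
    exact absurd hp not_forces_bot
  nt := by
    intro X hX _ p
    have hs : ∀ γ, ∃ ξ, ξ ∈ X ∧ γ < ξ := fun γ => hX γ
    choose s hs1 hs2 using hs
    obtain ⟨y⟩ : Nonempty W := by
      obtain ⟨b, -⟩ := exists_bound (s := (∅ : Set W)) countable_empty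
      exact ⟨b⟩
    obtain ⟨δ, hδ, -, hδ2⟩ := exists_lim_closed s y
    refine ⟨p, le_rfl, δ, hδ, fun h hh q' _ => ⟨q', le_rfl, s h, hs1 h, hs2 h, hδ2 h hh, ?_⟩⟩
    rw [forces_compl]
    intro r _ hr
    exact not_forces_bot hr

theorem kill_lad (f : W → W → RO PP) (hf : LadF f) : ∃ b : ℕ → W → RO PP,
    (∀ (i : ℕ) (p : PP), ∃ γ, ∀ x, γ < x → H9.PF.Lim x → ∃ q ≤ p, q ∈ b i x) ∧
    ∀ α, H9.PF.Lim α → ∀ p : PP, ∃ q ≤ p, ∃ i, ∃ γ < α, ∀ x, γ ≤ x → x < α →
      q ∈ (b i x ⊓ f α x)ᶜ := by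
  obtain ⟨b, hb1, hb2⟩ := kill_strong _ _ (rows_of_ladF hf)
  refine ⟨b, hb1, fun α hα p => ?_⟩
  obtain ⟨q, hq, i, h⟩ := hb2 α hα p
  obtain ⟨γ, hγ⟩ := hα.1
  exact ⟨q, hq, i, γ, hγ, fun x _ hx => h x hx⟩

/-- in the extension by `PP`, every sequence whose accumulation points avoid a club is killed -/
theorem forces_core2D_PP {ω' : W} (e : ℕ → W) (he : Function.Injective e)
    (heω : ∀ n, e n < ω') (heL : ∀ α, H9.PF.Lim α → ∀ n, e n < α)
    (p : PP) : p ∈ (core2DB (kapN W) (ordN ω') : RO PP) :=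
  forces_core2D (ccc_PP hit_all) kill_lad e he heω heL p

end H23.PQ
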