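import Pool.Agent.H23.PQ.LogicD
import Pool.Agent.H2.LH.CoreB

/-!
# The Boolean value of `Core2D`, and transfer to the quotient model
-/

universe u

namespace H23.PQ
open H85.Forcing H85.Forcing.BN H9.PF H2.LH

variable {B : Type u} [CompleteBooleanAlgebra B]

def ladDB (D C a : BN B) : B :=
  (⨅ x, mem x C ⇨ mem x a) ⊓ ((⨅ x, mem x a ⇨ ⨆ y, mem y C ⊓ mem x y) ⊓
    ⨅ b, mem b D ⇨ (inAccB C b)ᶜ)

def ladSeqDB (kap D c : BN B) : B :=
  ⨅ a, mem a kap ⇨ (isLimB a ⇨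
    ⨆ C, (⨅ X, (rel c a X ⇨ beq X C) ⊓ (beq X C ⇨ rel c a X)) ⊓ ladDB D C a)

def core2DB (kap om : BN B) : B :=
  ⨅ D, isClubB kap D ⇨ ⨅ c, ladSeqDB kap D c ⇨ ⨆ b, ⨆ d,
    (⨅ i, mem i kap ⇨ ⨅ x, mem x kap ⇨ ⨆ y, mem y kap ⊓ (rel b i y ⊓ mem x y)) ⊓
    (isClubB kap d ⊓
      ⨅ a, mem a kap ⇨ (mem a d ⇨ (isLimB a ⊓ ⨆ i, mem i om ⊓ (mem i a ⊓ ⨅ C, rel c a C ⇨
        ⨆ x, mem x a ⊓ ⨅ y, mem y C ⇨ (rel b i y ⇨ (mem x y)ᶜ)))))

instance extC_ladDB {e f k : BN B → BN B} [CongC e] [CongC f] [CongC k] :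
    ExtC (fun t => ladDB (e t) (f t) (k t)) :=
  ⟨by unfold ladDB; exact ExtC.h⟩

instance (a b : BN B) : ExtC (ladDB a b) :=
  ⟨(extC_ladDB (e := fun _ => a) (f := fun _ => b) (k := fun t => t)).h⟩

instance extC_ladSeqDB {e f k : BN B → BN B} [CongC e] [CongC f] [CongC k] :
    ExtC (fun t => ladSeqDB (e t) (f t) (k t)) :=
  ⟨by unfold ladSeqDB; exact ExtC.h⟩

instance (a b : BN B) : ExtC (ladSeqDB a b) :=
  ⟨(extC_ladSeqDB (e := fun _ => a) (f := fun _ => b) (k := fun t => t)).h⟩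

/-! ### transfer -/

variable (U : Ult B)

set_option linter.unusedSimpArgs false

theorem ladD_iff (D C a : BN B) :
    LadD (ME U) (cl U D) (cl U C) (cl U a) ↔ U.T (ladDB D C a) := by
  simp only [LadD, ladDB, T_iInf', T_iSup', U.inf, U.sup, U.himp, U.compl,
    cl_forall U, cl_exists U, ME_cl, cl_eq, inAcc_iff]

theorem ladSeqD_iff (k D c : BN B) :
    LadSeqD (ME U) (cl U k) (cl U D) (cl U c) ↔ U.T (ladSeqDB k D c) := by
  simp only [LadSeqD, ladSeqDB, T_iInf', T_iSup', U.inf, U.sup, U.himp, U.compl,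
    cl_forall U, cl_exists U, ME_cl, cl_eq, ladD_iff, isLim_iff, rel_iff,
    iff_iff_implies_and_implies]

set_option synthInstance.maxSize 4000 in
theorem core2D_iff (k o : BN B) : Core2D (ME U) (cl U k) (cl U o) ↔ U.T (core2DB k o) := by
  simp only [Core2D, core2DB, T_iInf', T_iSup', U.inf, U.sup, U.himp, U.compl,
    cl_forall U, cl_exists U, ME_cl, cl_eq, ladSeqD_iff, isLim_iff, rel_iff,
    H85.Forcing.BN.isClub_iff]

end H23.PQ
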