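import Pool.Agent.H9.PF.GoodThm

/-!
# The killing sets, with a stronger genericity

As `H9.PF.kill_PP`, but every large element can be added to each of the killing sets; so they meet
every club of the ground model.
-/

open Set

namespace H23.PQ
open H85.Forcing H85.Forcing.RO H9.PF

/-- `Good`, with more genericity of the killing sets -/
structure Good2 (P : Type) [Preorder P] (L : W → W → RO P) : Prop extends Good P L where
  kill2 : ∀ f : W → W → RO P, LadF f → ∃ b : ℕ → W → RO P,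
    (∀ (i : ℕ) (p : P), ∃ γ, ∀ x, γ < x → ∃ q ≤ p, q ∈ b i x) ∧
    ∀ α, Lim α → ∀ p : P, ∃ q ≤ p, ∃ i, ∃ γ < α, ∀ x, γ ≤ x → x < α → q ∈ (b i x ⊓ f α x)ᶜ

theorem kill_PP2 (f : W → W → RO PP) (hf : LadF f) : ∃ b : ℕ → W → RO PP,
    (∀ (i : ℕ) (p : PP), ∃ γ, ∀ x, γ < x → ∃ q ≤ p, q ∈ b i x) ∧
    ∀ α, Lim α → ∀ p : PP, ∃ q ≤ p, ∃ i, ∃ γ < α, ∀ x, γ ≤ x → x < α →
      q ∈ (b i x ⊓ f α x)ᶜ := by
  have h0 : ∀ α η : W, ∃ (c : ℕ → PP) (w : ℕ → Finset W), Lim α → η < α →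
      (∀ k, ∀ x < η, (x ∈ w k → c k ∈ f α x) ∧ (x ∉ w k → c k ∈ (f α x)ᶜ)) ∧
      ∀ p, ∃ k r, r ≤ p ∧ r ≤ c k := by
    intro α η
    by_cases h : Lim α ∧ η < α
    · obtain ⟨c, w, h1, h2⟩ := exists_deciding hf h.1 h.2
      exact ⟨c, w, fun _ _ => ⟨h1, h2⟩⟩
    · exact ⟨fun _ => ⟨∅, Cnd.empty⟩, fun _ => ∅, fun h1 h2 => absurd ⟨h1, h2⟩ h⟩
  choose c w hcw using h0
  obtain ⟨ν, hν1, hν2, hν3⟩ := exists_name (fun a e k => (c a e k).1) w
  have hsub : ∀ μ, Sub μ ν → HG μ := by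
    intro μ hμ
    obtain ⟨a, e, k, g, hg, hg'⟩ := hν3 μ hμ
    have h1 := (c a e k).2.hg g hg
    cases g with
    | l => exact absurd trivial hg'
    | b ρ i x =>
      have : ρ = μ := by
        by_contra h; exact hg' h
      exact this ▸ h1
    | s ρ i x =>
      have : ρ = μ := by
        by_contra h; exact hg' h
      exact this ▸ h1
  have htc : ∀ μ, tc ν μ → HG μ := by
    intro μ hμ
    cases hμ with
    | single h => exact hsub μ h
    | tail h h' => exact (hsub _ h').sub h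
  have hcnd : ∀ q, Ok q → (∀ f ∈ q, f.In (tc ν)) → Cnd q := fun q h1 h2 =>
    ⟨h1, fun f hf => (h2 f hf).mono htc⟩
  have hres : ∀ a e k, res (tc ν) (c a e k).1 = (c a e k).1 := by
    intro a e k
    refine res_eq fun g hg => ?_
    rw [← hν1 a e k] at hg
    exact (cond_in ν a e k hg).mono fun _ h => tc_of_sub h
  have hHG : HG ν := by
    rintro μ (rfl | hμ)
    · refine ⟨?_, ?_⟩
      · intro α hα e he q h1 h2
        obtain ⟨k, r, hr1, hr2⟩ := (hcw α e hα he).2 ⟨q, hcnd q h1 h2⟩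
        refine ⟨res (tc μ) r.1, r.2.ok.mono (res_sub _ _), res_in, ?_, k, ?_⟩
        · have := Le.res (closed_tc μ) hr1
          rwa [res_eq h2] at this
        · have := Le.res (closed_tc μ) hr2
          rw [hres] at this
          rwa [hν1]
      · intro α hα e he e' he' k k' q h1 h2 h3 h4 x hx hx'
        rw [hν1] at h3 h4
        rw [hν2, hν2]
        have g1 := (hcw α e hα he).1 k x hx
        have g2 := (hcw α e' hα he').1 k' x hx'
        obtain ⟨Q, rfl⟩ : ∃ Q : PP, Q.1 = q := ⟨⟨q, hcnd q h1 h2⟩, rfl⟩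
        have h3' : Q ≤ c α e k := h3
        have h4' : Q ≤ c α e' k' := h4
        constructor
        · intro hxw
          by_contra hxw'
          exact forces_compl.1 (Forces.down (g2.2 hxw') h4') _ le_rfl (Forces.down (g1.1 hxw) h3')
        · intro hxw
          by_contra hxw'
          exact forces_compl.1 (Forces.down (g1.2 hxw') h3') _ le_rfl (Forces.down (g2.1 hxw) h4')
    · exact htc μ hμ μ (Or.inl rfl)
  refine ⟨BB ν, fun i p => ?_, fun α hα p => ?_⟩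
  · obtain ⟨γ, hγ⟩ := exists_bound (s := ((ors p.1 : Finset W) : Set W))
      (Finset.countable_toSet _)
    refine ⟨γ, fun x hx => ?_⟩
    obtain ⟨q, hq, e⟩ := exists_add_b p hHG i (x := x) fun g hg =>
      ((hγ _ (mem_ors hg)).trans hx).le
    exact ⟨q, hq, BB_of_mem (e ▸ Finset.mem_insert_self _ _)⟩
  · obtain ⟨q, hq, i, hi⟩ : ∃ q ≤ p, ∃ i, Fact.s ν α i ∈ q.1 := by
      by_cases h : ∃ i, Fact.s ν α i ∈ p.1
      · exact ⟨p, le_rfl, h⟩
      · push Not at h
        obtain ⟨q, hq, e⟩ := exists_add_s p hHG hα 0 h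
        exact ⟨q, hq, 0, e ▸ Finset.mem_insert_self _ _⟩
    obtain ⟨γ, hγ, hγ'⟩ := hα.bound (ors q.1)
    refine ⟨q, hq, i, γ, hγ, fun x hx1 hx2 => ?_⟩
    rw [forces_compl]
    rintro r hr ⟨h1, h2⟩
    have h1 : r ∈ BB ν i x := h1
    have h2 : r ∈ f α x := h2
    obtain ⟨s, hs, h3⟩ := forces_BB.1 h1 r le_rfl
    have h4 : Fact.b ν i x ∉ q.1 := fun h => absurd (hγ' x (mem_ors h) hx2) (not_lt.2 hx1)
    have h5 : Le s.1 q.1 := hs.trans hr
    obtain ⟨e, k, k1, k2, k3, k4⟩ := h5.out hi h3 h4 hx2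
    rw [hν1] at k4
    rw [hν2] at k3
    have h6 : s ≤ c α e k := k4
    have h7 := ((hcw α e hα k2).1 k x k1).2 k3
    exact forces_compl.1 (Forces.down h7 h6) s le_rfl (Forces.down h2 hs)

/-- **The forcing notion.** -/
theorem good2_PP : Good2 PP LL where
  toGood := good_PP
  kill2 := kill_PP2

end H23.PQ
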