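import Pool.Agent.H2.LH.Logic

/-!
# First-order reduction inside a model of ZFC, when `Ω` contains a club

If `Ω` contains the club `D`, then a `(κ, 2, ^ΩR)`-sequence consists of sets `C` without limit
points in `D`.
-/

namespace H23.PQ

open H85.Forcing H9.PF H2.LH

variable {M : Type*} {E : M → M → Prop}

/-- `C` is a cofinal subset of `a`, and no element of `D` is in `acc(C)` -/
def LadD (E : M → M → Prop) (D C a : M) : Prop :=
  (∀ x, E x C → E x a) ∧ (∀ x, E x a → ∃ y, E y C ∧ E x y) ∧ ∀ b, E b D → ¬ InAcc E C b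

/-- `c` codes a sequence of sets as in `LadD` -/
def LadSeqD (E : M → M → Prop) (kap D c : M) : Prop :=
  ∀ a, E a kap → IsLim E a → ∃ C, (∀ X, Rel E c a X ↔ X = C) ∧ LadD E D C a

/-- for every club `D` and every sequence as in `LadSeqD` there are `ω` unbounded sets which it
never meets simultaneously -/
def Core2D (E : M → M → Prop) (kap om : M) : Prop :=
  ∀ D, IsClub E kap D → ∀ c, LadSeqD E kap D c → ∃ b d,
    (∀ i, E i kap → ∀ x, E x kap → ∃ y, E y kap ∧ (Rel E b i y ∧ E x y)) ∧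
    (IsClub E kap d ∧
      ∀ a, E a kap → E a d → IsLim E a ∧ ∃ i, E i om ∧ (E i a ∧ ∀ C, Rel E c a C →
        ∃ x, E x a ∧ ∀ y, E y C → Rel E b i y → ¬ E x y))

theorem ladSeqD_of_isSeq {kap z o t c D Om : M} (hkap : IsOrd E kap)
    (hz : IsZero E z) (ho : ∀ x, E x o ↔ x = z) (ht : ∀ x, E x t ↔ x = z ∨ x = o)
    (hD : ∀ x, E x D → E x Om)
    (R : M → M → Prop) (hc : IsSeq E kap t (OmegaRel E R Om) c) : LadSeqD E kap D c := by
  intro a ha hal
  obtain ⟨h1, ⟨C, hC⟩, h3, h4⟩ := hc a ha hal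
  refine ⟨C, fun D => ⟨fun hD => unique_of_cardLt hz ho ht h3 hD hC, fun e => by rwa [e]⟩, ?_⟩
  obtain ⟨hne, hsub, hsup, hna, hacc⟩ := h1 C hC
  have hCa : ∀ x, E x C → E x a := by
    intro x hx
    rcases hsup.2.1 x hx with h | h
    · exact h
    · subst h; exact absurd hx hna
  refine ⟨hCa, fun x hx => ?_, fun b hbD hb => ?_⟩
  · obtain ⟨y, hy, hxy⟩ := hsup.2.2 x hx
    exact ⟨y, hy, hxy⟩
  · obtain ⟨X, hX, -, hR⟩ := h4 C hC b hb
    obtain ⟨hb1, hb2, y, hyC, hby⟩ := hb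
    have hyk : E y kap := hsub y hyC
    have hbk : E b kap := hkap.1 y hyk b hby
    have hbO : IsOrd E b := by
      refine ⟨hkap.2 b hbk, fun w hw => hkap.2 w (hkap.1 b hbk w hw)⟩
    have hbL : IsLim E b := ⟨hbO, hb1, fun w hw => by
      obtain ⟨y, -, h1, h2⟩ := hb2 w hw
      exact ⟨y, h1, h2⟩⟩
    obtain ⟨-, -, hsupD, -, -⟩ := (hc b hbk hbL).1 X hX
    exact hR b hsupD (hD b hbD)

theorem not_pminusD {kap om th z o t D Om : M} (hkap : IsOrd E kap)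
    (hz : IsZero E z) (ho : ∀ x, E x o ↔ x = z) (ht : ∀ x, E x t ↔ x = z ∨ x = o)
    (hc : Core2D E kap om) (hth1 : ∀ x, E x om → E x th) (hth2 : ∀ x, E x th → E x kap)
    (hDc : IsClub E kap D) (hD : ∀ x, E x D → E x Om)
    (R : M → M → Prop) : ¬ PMinus E kap t (OmegaRel E R Om) th t := by
  rintro ⟨c, hc1, hc2⟩
  have hL := ladSeqD_of_isSeq hkap hz ho ht hD R hc1
  obtain ⟨b, d, hb, hd, hbd⟩ := hc D hDc c hL
  obtain ⟨a, ha, had, -, hC⟩ := hc2 b (fun i hi x hx => by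
    obtain ⟨y, h1, h2, h3⟩ := hb i (hth2 i hi) x hx
    exact ⟨y, h1, h2, h3⟩) d hd
  obtain ⟨hal, i, hi, hia, h1⟩ := hbd a ha had
  obtain ⟨C, hCa⟩ := (hc1 a ha hal).2.1
  obtain ⟨x, hx, h2⟩ := h1 C hCa
  obtain ⟨-, -, h3⟩ := hC C hCa i (hth1 i hi) hia
  obtain ⟨y, ⟨hy1, hy2, hy3⟩, hxy⟩ := h3 x hx
  exact h2 y hy1.1 hy3 hxy

end H23.PQ
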