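import Pool.Agent.H23.PQ.Kill
import Pool.Agent.H23.PQ.ForcedD

/-!
# The forcing half, for all `Ω` which contain a club
-/

namespace H23.PQ
open H85.Forcing H85.Forcing.BN H85.Forcing.RO H9.PF H2.LH

/-- Forcing half, as `H2.LH.model_of_good`, for all `Ω` which contain a club. -/
theorem model_of_good2 {P : Type} [Preorder P] {L : W → W → RO P} (G : Good2 P L) :
    ∃ (M : Type 1) (E : M → M → Prop), IsZFC E ∧ ∃ kap om one two : M,
      IsUncReg E kap ∧ IsOm E om ∧ IsOne E one ∧ IsTwo E two ∧ IsCard E two ∧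
      (∀ R : M → M → Prop, PMinus E kap two R one two) ∧
      ∀ D Om : M, IsClub E kap D → (∀ x, E x D → E x Om) → ∀ R : M → M → Prop,
        ¬ PMinus E kap two (OmegaRel E R Om) om two ∧
        ¬ PMinus E kap two (OmegaRel E R Om) kap two := by
  have hne : Nonempty P := G.nonempty
  obtain ⟨U⟩ := exists_ult (RO P)
  have hT : ∀ {a : RO P}, (∀ p, p ∈ a) → U.T a := fun h => by
    rw [eq_top_iff_forces.2 h]; exact U.top
  have hZ : IsZFC (ME U) := isZFC U
  obtain ⟨ω', hω, hω2⟩ := exists_om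
  obtain ⟨e, he, heL⟩ := exists_nat
  obtain ⟨z, o, t, hz, ho, ht⟩ := exists_two hZ
  have hU : IsUncReg (ME U) (cl U (kapN W)) :=
    (isUncReg_iff U _).2 (hT (forces_isUncReg G.ccc))
  have hO : IsOm (ME U) (cl U (ordN ω')) := (isOm_iff U _).2 (hT (forces_isOm ⟨hω, hω2⟩))
  have hok : ME U (cl U (ordN ω')) (cl U (kapN W)) := by
    rw [ME_cl, mem_ordN_kapN]; exact U.top
  have h1 : Core1 (ME U) (cl U (kapN W)) := (core1_iff U _).2 (hT (forces_core1 G.toGood))
  have h2 : Core2D (ME U) (cl U (kapN W)) (cl U (ordN ω')) :=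
    (core2D_iff U _ _).2 (hT (forces_core2D G.ccc (fun f hf => by
      obtain ⟨b, hb1, hb2⟩ := G.kill2 f hf
      exact ⟨b, fun i p => by
        obtain ⟨γ, hγ⟩ := hb1 i p
        exact ⟨γ, fun x hx _ => hγ x hx⟩, hb2⟩) e he (heL ω' hω) heL))
  have hsub : ∀ x, ME U x (cl U (ordN ω')) → ME U x (cl U (kapN W)) :=
    fun x hx => hU.1.1 _ hok x hx
  refine ⟨MQ U, ME U, hZ, cl U (kapN W), cl U (ordN ω'), o, t, hU, hO, (isOne_iff hZ hz).2 ho,
    (isTwo_iff hZ hz ho).2 ht, isCard_two hz ho ht, fun R => ?_, fun D Om hD hDO R => ⟨?_, ?_⟩⟩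
  · exact pminus_one hZ hU.1 hz ho ht h1 _
  · exact not_pminusD hU.1 hz ho ht h2 (fun x hx => hx) hsub hD hDO R
  · exact not_pminusD hU.1 hz ho ht h2 hsub (fun x hx => hx) hD hDO R

end H23.PQ
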